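import Pool.Agent.Work.MP_64ea0f_cs.InterfaceG3

set_option autoImplicit false

namespace Pool.CS

/-- RD1. `Stmt_THR` is used too (last hypothesis). -/
theorem rd1_thm : Stmt_FR1 → Stmt_MSX → Stmt_MSA → Stmt_NRT → Stmt_IVA → Stmt_THR → Stmt_RD1 := by
  intro hFR1 hMSX hMSA hNRT hIVA hTHR D K hK C N hOk x hx
  classical
  have hfin : {δ | D.Far K C x δ}.Finite := hOk.2.2.2.1 x hx
  have hbig : ∀ δ, D.Far K C x δ → D.Big x δ ∧ D.Cmp K δ := fun δ h =>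
    ⟨(hOk.2.2.1 x hx δ h).1, (hOk.2.2.1 x hx δ h).2.1⟩
  obtain ⟨hF1, hF3⟩ := hFR1 D K hK C N hOk
  obtain ⟨hN1, -, -⟩ := hNRT D K C
  -- the choice of the shifts
  let Q : D.V → (D.V → ℤ) → Prop := fun δ ν => D.Shd K N δ ν ∧ D.Near K C (D.shs δ ν x) δ
  let ν : D.V → D.V → ℤ := fun δ => if h : ∃ ν, Q δ ν then h.choose else fun _ => 0
  have hνpos : ∀ δ, (∃ ν, Q δ ν) → Q δ (ν δ) := by
    intro δ h
    have h1 : ν δ = h.choose := dif_pos h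
    rw [h1]
    exact h.choose_spec
  have hνneg : ∀ δ, (¬ ∃ ν, Q δ ν) → ν δ = fun _ => 0 := fun δ h => dif_neg h
  have hshd : ∀ δ, D.Far K C x δ → D.Shd K N δ (ν δ) := by
    intro δ h
    by_cases hQ : ∃ ν, Q δ ν
    · exact (hνpos δ hQ).1
    · rw [hνneg δ hQ]
      exact (hIVA D K δ h.1).1 N
  have hΔ : ∀ δ, δ ∈ hfin.toFinset ↔ D.Far K C x δ := by
    intro δ
    rw [Set.Finite.mem_toFinset]
    exact Iff.rfl
  obtain ⟨z, hz⟩ := hMSX D K hK x hx N hfin.toFinset ν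
    (fun δ hδ => ⟨((hΔ δ).1 hδ).1, (hbig δ ((hΔ δ).1 hδ)).2, (hbig δ ((hΔ δ).1 hδ)).1⟩)
    (fun δ hδ δ' hδ' hne => hF3 x hx δ δ' ((hΔ δ).1 hδ) ((hΔ δ').1 hδ') hne)
    (fun δ hδ => hshd δ ((hΔ δ).1 hδ))
  refine ⟨z, hfin.toFinset, ν, ⟨hz.vy, ?_⟩, hz, fun δ hδ => (hΔ δ).1 hδ⟩
  rintro δ' hfar y ⟨Δ', ν', hy⟩ hnear
  have hinv := (hMSA D K hK N).1 _ _ _ _ hz
  -- `x` is far at `δ'`
  have hmem : δ' ∈ hfin.toFinset := by
    by_contra hnot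
    exact hnot ((hΔ δ').2 ((hF1 _ _ _ _ hinv δ' hfar).2 hnot).2)
  -- `δ'` is one of the vectors of the second shift
  have hmem' : δ' ∈ Δ' := by
    by_contra hnot
    exact ((hF1 _ _ _ _ hy δ' hfar).2 hnot).2.2 hnear
  have hAf : D.Af δ' := hfar.1
  have hT := hTHR D δ' hAf
  -- the coordinates of `y`
  have hcoord : ∀ φ ∈ D.Fd δ', φ ∈ y ↔ φ ∈ D.shs δ' (fun φ => ν δ' φ + ν' δ' φ) x := by
    intro φ hφ
    obtain ⟨-, hT2, hT3, -⟩ := hT φ hφ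
    have hrt : φ + (-((ν' δ' φ : ℝ) * D.cst δ' φ)) • δ' ∈ D.Rt := by
      rw [hT2]
      refine ⟨-ν' δ' φ, ?_⟩
      push_cast
      ring
    obtain ⟨hc, hfd⟩ := hT3 _ hrt
    have hdir := (hz.shd δ' hmem).dir φ hφ _ hfd
    rw [hy.inn δ' hmem' φ hφ]
    have e1 : φ - ((ν' δ' φ : ℝ) * D.cst δ' φ) • δ' = φ + (-((ν' δ' φ : ℝ) * D.cst δ' φ)) • δ' := by
      rw [neg_smul, sub_eq_add_neg]
    rw [e1, hz.inn δ' hmem _ hfd, hdir, hc]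
    have e2 : φ + (-((ν' δ' φ : ℝ) * D.cst δ' φ)) • δ' - ((ν δ' φ : ℝ) * D.cst δ' φ) • δ' =
        φ - (((ν δ' φ + ν' δ' φ : ℤ) : ℝ) * D.cst δ' φ) • δ' := by
      push_cast
      rw [add_mul, add_smul, neg_smul]
      abel
    rw [e2]
    constructor
    · intro h
      exact Or.inr ⟨hφ, h⟩
    · rintro (⟨-, h⟩ | ⟨-, h⟩)
      · exact absurd hφ h
      · exact h
  have hQ : ∃ ν, Q δ' ν := by
    refine ⟨fun φ => ν δ' φ + ν' δ' φ, (hIVA D K δ' hAf).2.2.1 N _ _ (hz.shd δ' hmem) (hy.shd δ' hmem'), ?_⟩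
    exact hN1 _ _ _ hcoord hnear
  have hQ2 := (hνpos δ' hQ).2
  refine hfar.2 (hN1 _ _ _ (fun φ hφ => ?_) hQ2)
  rw [hz.inn δ' hmem φ hφ]
  constructor
  · rintro (⟨-, h⟩ | ⟨-, h⟩)
    · exact absurd hφ h
    · exact h
  · intro h
    exact Or.inr ⟨hφ, h⟩

end Pool.CS
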