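import Pool.Agent.Work.MP_64ea0f_cs.InterfaceD

set_option autoImplicit false

namespace Pool.CS

namespace TRF

section
variable {Λ : Type} {G : SimpleGraph Λ} {Y : Type} {M : Type} [Group M] [MulAction M Y]

/-- the orbit of a point -/
def mk (M : Type) [Group M] {Y : Type} [MulAction M Y] (y : Y) : MulAction.orbitRel.Quotient M Y :=
  Quotient.mk (MulAction.orbitRel M Y) y

theorem mk_eq {y y' : Y} : mk M y = mk M y' ↔ ∃ m : M, m • y' = y := by
  rw [mk, mk, Quotient.eq, MulAction.orbitRel_apply, MulAction.mem_orbit_iff]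

theorem mk_smul (m : M) (y : Y) : mk M (m • y) = mk M y := mk_eq.2 ⟨m, rfl⟩

theorem mk_ind {p : MulAction.orbitRel.Quotient M Y → Prop} (h : ∀ y, p (mk M y)) (v) : p v :=
  Quotient.ind h v

/-- the induced involutions on the orbits -/
def qls (L : LS G Y) (h : ∀ (m : M) s y, L.τ s (m • y) = m • L.τ s y) :
    LS G (MulAction.orbitRel.Quotient M Y) where
  τ s := Quotient.map' (s₁ := MulAction.orbitRel M Y) (s₂ := MulAction.orbitRel M Y) (L.τ s) (by
    intro a b hab
    obtain ⟨m, hm⟩ := hab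
    refine ⟨m, ?_⟩
    change m • L.τ s b = L.τ s a
    rw [← h]
    exact congrArg (L.τ s) hm)
  inv s v := by
    induction v using mk_ind with
    | h y => exact congrArg (mk M) (L.inv s y)
  com s t hst v := by
    induction v using mk_ind with
    | h y => exact congrArg (mk M) (L.com s t hst y)

theorem qls_mk (L : LS G Y) (h : ∀ (m : M) s y, L.τ s (m • y) = m • L.τ s y) (s : Λ) (y : Y) :
    (qls L h).τ s (mk M y) = mk M (L.τ s y) := rfl

theorem mvs_smul (L : LS G Y) (h : ∀ (m : M) s y, L.τ s (m • y) = m • L.τ s y) (m : M) (y : Y) :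
    mvs L (m • y) = mvs L y := by
  ext s
  change L.τ s (m • y) ≠ m • y ↔ L.τ s y ≠ y
  rw [h]
  exact not_congr (smul_left_cancel_iff m)

theorem out_eq (y : Y) : ∃ m : M, m • y = Quotient.out (mk M y) := by
  have h1 : mk M (Quotient.out (mk M y)) = mk M y := Quotient.out_eq _
  exact mk_eq.1 h1

theorem rst_smul {F : Type} [AddCommGroup F] (L : LS G Y)
    (h : ∀ (m : M) s y, L.τ s (m • y) = m • L.τ s y) (k : ℕ) (φ : Y → List (Set Λ) → F)
    (hφ : ∀ (m : M) y l, Fl G (mvs L y) l → l.length = k → φ (m • y) l = φ y l)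
    (m : M) (y : Y) (l : List (Set Λ)) (hl : l.length = k) :
    rst L φ (m • y) l = rst L φ y l := by
  rw [rst, rst, mvs_smul L h m y]
  by_cases hf : Fl G (mvs L y) (l.map fun I => I ∩ mvs L y)
  · rw [hat_fl _ hf, hat_fl _ hf]
    exact hφ m y _ hf (by rw [List.length_map]; exact hl)
  · rw [hat_not _ hf, hat_not _ hf]

end

end TRF

theorem trf_thm : Stmt_PROD → Stmt_GOOD → Stmt_TRR → Stmt_TRF := by
  intro hPROD hGOOD hTRR Λ _ G F _ _ Y L M _ _ κ c n φ hMv heq hfin hκ hc hco hcy hinv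
  obtain ⟨hR1, hR2, hR3⟩ := hTRR Λ G F Y L n φ hMv hco hcy
  have hout : ∀ (y : Y) (l : List (Set Λ)), l.length = n + 2 →
      rst L φ (Quotient.out (TRF.mk M y)) l = rst L φ y l := by
    intro y l hl
    obtain ⟨m, hm⟩ := TRF.out_eq (M := M) y
    rw [← hm]
    exact TRF.rst_smul L heq (n + 2) φ hinv m y l hl
  have hφ1 : Coch (TRF.qls L heq) Set.univ (n + 1)
      (fun v : MulAction.orbitRel.Quotient M Y => rst L φ (Quotient.out v)) := by
    intro v x l hl hn s hs
    induction v using TRF.mk_ind with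
    | h y =>
      change rst L φ (Quotient.out ((TRF.qls L heq).τ s (TRF.mk M y))) (x :: l) = _
      rw [TRF.qls_mk, hout _ _ (by simp [hn])]
      change _ = rst L φ (Quotient.out (TRF.mk M y)) (x :: l)
      rw [hout _ _ (by simp [hn])]
      exact hR1 y x l hl hn s hs
  have hφ2 : Cocy G Set.univ (n + 1)
      (fun v : MulAction.orbitRel.Quotient M Y => rst L φ (Quotient.out v)) := by
    intro v l hl hn
    exact hR2 (Quotient.out v) l hl hn
  obtain ⟨V', hV', L', π, -, hsurj, hequi, ψ', hψ1, hψ2⟩ :=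
    hGOOD Λ G F Set.univ n (MulAction.orbitRel.Quotient M Y) (TRF.qls L heq)
      (fun a ha => absurd (Set.mem_univ a) ha) _ hφ1 hφ2
  obtain ⟨Q, hQ, ⟨q₀⟩, K, ρ, -, hρ1, hρ2⟩ :=
    hPROD Λ G Set.univ (MulAction.orbitRel.Quotient M Y) V' (TRF.qls L heq) L' π hsurj
      (fun a _ v => hequi a v)
  refine ⟨K.hom.ker, inferInstance, ?_, fun y => ψ' (ρ (TRF.mk M y, K.r q₀ (κ y))), ?_, ?_, ?_⟩
  · infer_instance
  · intro y x l hl hn s hs
    have hsy : L.τ s y ≠ y := (hl.2 x List.mem_cons_self).2 hs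
    change ψ' (ρ (TRF.mk M (L.τ s y), K.r q₀ (κ (L.τ s y)))) (x :: l) = _
    rw [hκ s y hsy, LS.r_mul, LS.r_rg]
    have h1 := hρ2 s (Set.mem_univ s) (TRF.mk M y, K.r q₀ (κ y))
    change ρ (TRF.mk M (L.τ s y), K.τ s (K.r q₀ (κ y))) = _ at h1
    rw [h1]
    exact hψ1 _ x l (hl.mono (Set.subset_univ _)) hn s hs
  · intro y l hl hn
    have h1 := hψ2 (ρ (TRF.mk M y, K.r q₀ (κ y))) l (hl.mono (Set.subset_univ _)) hn
    change _ = CS.del (ψ' (ρ (TRF.mk M y, K.r q₀ (κ y)))) l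
    rw [← h1]
    change _ = rst L φ (Quotient.out (π (ρ (TRF.mk M y, K.r q₀ (κ y))))) l
    rw [hρ1]
    change _ = rst L φ (Quotient.out (TRF.mk M y)) l
    rw [hout y l hn, hR3 y l hl]
  · intro m hm y l hl hn
    change ψ' (ρ (TRF.mk M (m • y), K.r q₀ (κ (m • y)))) l = ψ' (ρ (TRF.mk M y, K.r q₀ (κ y))) l
    have h1 : K.r q₀ (c m) = q₀ := by
      rw [LS.r, map_inv, (MonoidHom.mem_ker).1 hm, inv_one]
      rfl
    rw [TRF.mk_smul, hc, LS.r_mul, h1]

end Pool.CS
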