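import Pool.Agent.Work.MP_64ea0f_cs.InterfaceD2

set_option autoImplicit false

namespace Pool.CS

namespace TSM

section basics
variable {Λ Y Γ : Type} [Group Γ] [MulAction Γ Y] {G : SimpleGraph Λ} {L : LS G Y}
  {al : Γ →* Equiv.Perm Λ} {M : Subgroup Γ} {κ : Y → RC G} {c : M →* RC G}

theorem eqv_mem (hG : Geo L al M κ c) {m : Γ} (hm : m ∈ M) (s : Λ) (y : Y) :
    m • L.τ s y = L.τ s (m • y) := by
  rw [hG.eqv, hG.triv m hm]
  rfl

theorem mvs_mem (hG : Geo L al M κ c) {m : Γ} (hm : m ∈ M) (y : Y) : mvs L (m • y) = mvs L y := by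
  ext s
  change L.τ s (m • y) ≠ m • y ↔ L.τ s y ≠ y
  rw [← eqv_mem hG hm]
  exact not_congr (smul_left_cancel_iff m)

theorem sub_mvs_tau (hM : Mv L) {I : Set Λ} (hI : G.IsClique I) {y : Y} (hy : I ⊆ mvs L y) {s : Λ}
    (hs : s ∈ I) : I ⊆ mvs L (L.τ s y) := by
  intro t ht
  by_cases hst : t = s
  · subst hst
    change L.τ t (L.τ t y) ≠ L.τ t y
    rw [L.inv]
    exact (hy ht).symm
  · exact (hM s t (hI hs ht (Ne.symm hst)) y (hy hs)).2 (hy ht)

theorem sub_mvs_foldr (hM : Mv L) {I : Set Λ} (hI : G.IsClique I) {y : Y} (hy : I ⊆ mvs L y)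
    (w : List Λ) (hw : ∀ s ∈ w, s ∈ I) : I ⊆ mvs L (w.foldr L.τ y) := by
  induction w with
  | nil => exact hy
  | cons s w ih =>
    rw [List.foldr_cons]
    exact sub_mvs_tau hM hI (ih fun t ht => hw t (List.mem_cons_of_mem _ ht)) (hw s List.mem_cons_self)

/-- a flag of cliques moved by `y` is moved by the points of the smallest cube -/
theorem fl_tau (hM : Mv L) {x : Set Λ} {l : List (Set Λ)} {y : Y} (h : Fl G (mvs L y) (x :: l)) {s : Λ}
    (hs : s ∈ x) : Fl G (mvs L (L.τ s y)) (x :: l) := by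
  refine ⟨h.1, fun I hI => ⟨(h.2 I hI).1, ?_⟩⟩
  refine sub_mvs_tau hM (h.2 I hI).1 (h.2 I hI).2 ?_
  rcases List.mem_cons.1 hI with rfl | hI
  · exact hs
  · exact (h.ss hI).subset hs

theorem fl_foldr (hM : Mv L) {x : Set Λ} {l : List (Set Λ)} {y : Y} (h : Fl G (mvs L y) (x :: l))
    (w : List Λ) (hw : ∀ s ∈ w, s ∈ x) : Fl G (mvs L (w.foldr L.τ y)) (x :: l) := by
  induction w with
  | nil => exact h
  | cons s w ih =>
    rw [List.foldr_cons]
    exact fl_tau hM (ih fun t ht => hw t (List.mem_cons_of_mem _ ht)) (hw s List.mem_cons_self)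

theorem fl_smul (hG : Geo L al M κ c) {m : Γ} (hm : m ∈ M) {l : List (Set Λ)} {y : Y}
    (h : Fl G (mvs L y) l) : Fl G (mvs L (m • y)) l := by
  rw [mvs_mem hG hm]
  exact h

theorem fl_single {A I : Set Λ} (h1 : G.IsClique I) (h2 : I ⊆ A) : Fl G A [I] :=
  ⟨List.pairwise_singleton _ _, fun J hJ => by
    rw [List.mem_singleton.1 hJ]
    exact ⟨h1, h2⟩⟩

theorem fl_pair {A I J : Set Λ} (h0 : I ⊂ J) (h1 : G.IsClique J) (h2 : J ⊆ A) : Fl G A [I, J] := by
  refine ⟨?_, fun K hK => ?_⟩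
  · rw [List.pairwise_cons]
    refine ⟨fun K hK => ?_, List.pairwise_singleton _ _⟩
    rw [List.mem_singleton.1 hK]
    exact h0
  · rcases List.mem_cons.1 hK with rfl | hK
    · exact ⟨h1.subset h0.subset, h0.subset.trans h2⟩
    · rw [List.mem_singleton.1 hK]
      exact ⟨h1, h2⟩

theorem fl_length [Finite Λ] {A : Set Λ} {l : List (Set Λ)} (h : Fl G A l) :
    l.length ≤ Nat.card Λ + 1 := by
  have h1 : (l.map Set.ncard).Pairwise (· < ·) := by
    rw [List.pairwise_map]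
    exact h.1.imp fun hab => Set.ncard_lt_ncard hab (Set.toFinite _)
  have h2 : (l.map Set.ncard).Nodup := h1.imp fun hab => hab.ne
  have h3 : (l.map Set.ncard).toFinset ⊆ Finset.range (Nat.card Λ + 1) := by
    intro n hn
    rw [List.mem_toFinset, List.mem_map] at hn
    obtain ⟨I, -, rfl⟩ := hn
    rw [Finset.mem_range]
    have := Set.ncard_le_card I
    omega
  have h4 := Finset.card_le_card h3
  rw [List.toFinset_card_of_nodup h2, List.length_map, Finset.card_range] at h4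
  exact h4

theorem len_one {α : Type} {l : List α} (h : l.length = 1) : ∃ a, l = [a] :=
  List.length_eq_one_iff.1 h

theorem len_two {α : Type} {l : List α} (h : l.length = 2) : ∃ a b, l = [a, b] :=
  List.length_eq_two.1 h

theorem del_pair {α F : Type} [AddCommGroup F] (φ : List α → F) (a b : α) :
    del φ [a, b] = φ [b] - φ [a] := by
  rw [del_cons, del_cons, del_nil]
  abel

/-- the condition for simplices of dimension `k` -/
theorem smp_sub {A : Set Λ} {l l' : List (Set Λ)} {k : ℕ} (h : Fl G A l ∧ l.length = k + 1 + 1)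
    (h1 : l'.Sublist l) (h2 : l'.length + 1 = l.length) : Fl G A l' ∧ l'.length = k + 1 :=
  ⟨h.1.sublist h1, by omega⟩

end basics

end TSM

open Classical in
theorem tsm_thm : Stmt_SMITH → Stmt_TSA → Stmt_TSB → Stmt_TSM := by
  intro hSM hTSA hTSB Λ _ G p _ Y L Γ _ _ al M κ c hG σ hσ E h1 h2 h3
  have hne : NeZero p := ⟨(Fact.out : p.Prime).ne_zero⟩
  -- the tower of subgroups
  have hA := hTSA Λ G (ZMod p) Y L Γ al M κ c hG
  let P := {M₁ : Subgroup Γ // M₁ ≤ M ∧ M₁.Normal ∧ M₁.FiniteIndex}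
  have hnext : ∀ M₁ : P, ∃ M₂ : P, M₂.1 ≤ M₁.1 ∧
      ∀ (n : ℕ) (φ : Y → List (Set Λ) → ZMod p), TCoch L (n + 1) φ → Ivt L M₁.1 (n + 1) φ →
        (∀ y l, Fl G (mvs L y) l → l.length = n + 3 → del (φ y) l = 0) →
        ∃ ψ : Y → List (Set Λ) → ZMod p, TCoch L n ψ ∧ Ivt L M₂.1 n ψ ∧
          ∀ y l, Fl G (mvs L y) l → l.length = n + 2 → φ y l = del (ψ y) l := by
    intro M₁
    obtain ⟨M₂, q1, q2, q3, q4⟩ := hA M₁.1 M₁.2.1 M₁.2.2.1 M₁.2.2.2
    exact ⟨⟨M₂, q1.trans M₁.2.1, q2, q3⟩, q1, q4⟩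
  choose nx hnx1 hnx2 using hnext
  let Ps : ℕ → P := fun j => Nat.rec ⟨M, le_refl M, hG.nor, hG.fin⟩ (fun _ x => nx x) j
  have hPs0 : (Ps 0).1 = M := rfl
  have hPsS : ∀ j, Ps (j + 1) = nx (Ps j) := fun j => rfl
  obtain ⟨T, mk, hT1, hT2, hT3, hT4, hT5⟩ := hTSB Λ G p (ZMod p) Y L Γ al M κ c hG σ hσ
    (fun j => (Ps j).1) (fun j => (Ps j).2.1) (fun j => (Ps j).2.2.1)
    (fun j => by
      rw [hPsS]
      exact hnx1 (Ps j))
  -- points of the same simplex
  have hmktau : ∀ (j k : ℕ) (y : Y) (l : List (Set Λ)) (h : Fl G (mvs L y) l ∧ l.length = k + 1) (s : Λ)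
      (_ : ∀ I ∈ l, s ∈ I) (h' : Fl G (mvs L (L.τ s y)) l ∧ l.length = k + 1),
      mk j k (L.τ s y) l h' = mk j k y l h := by
    intro j k y l h s hs h'
    refine ((hT2 j k y l h (L.τ s y) l h').2 ⟨rfl, 1, Subgroup.one_mem _, [s], ?_, ?_⟩).symm
    · intro t ht I hI
      rw [List.mem_singleton.1 ht]
      exact hs I hI
    · rw [one_smul]
      rfl
  have hmksmul : ∀ (j k : ℕ) (y : Y) (l : List (Set Λ)) (h : Fl G (mvs L y) l ∧ l.length = k + 1) (m : Γ)
      (_ : m ∈ (Ps j).1) (h' : Fl G (mvs L (m • y)) l ∧ l.length = k + 1),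
      mk j k (m • y) l h' = mk j k y l h := by
    intro j k y l h m hm h'
    refine ((hT2 j k y l h (m • y) l h').2 ⟨rfl, m, hm, [], ?_, rfl⟩).symm
    intro t ht
    exact absurd ht List.not_mem_nil
  -- the first hypothesis
  have hHA : ∀ j k, j < Nat.card Λ → k + 1 ≤ Nat.card Λ → ∀ f : T.S j (k + 1) → ZMod p,
      T.δ j (k + 1) f = 0 →
      ∃ g : T.S (j + 1) k → ZMod p, T.δ (j + 1) k g = fun x => f (T.pr j (k + 1) x) := by
    intro j k _ _ f hf
    let φ : Y → List (Set Λ) → ZMod p := fun y l =>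
      if h : Fl G (mvs L y) l ∧ l.length = k + 1 + 1 then f (mk j (k + 1) y l h) else 0
    have hφ : ∀ y l (h : Fl G (mvs L y) l ∧ l.length = k + 1 + 1), φ y l = f (mk j (k + 1) y l h) :=
      fun y l h => dif_pos h
    obtain ⟨ψ, hψ1, hψ2, hψ3⟩ := hnx2 (Ps j) k φ
      (by
        intro y x l hl hn s hs
        have q1 : Fl G (mvs L y) (x :: l) ∧ (x :: l).length = k + 1 + 1 := ⟨hl, by simp [hn]⟩
        have q2 : Fl G (mvs L (L.τ s y)) (x :: l) ∧ (x :: l).length = k + 1 + 1 :=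
          ⟨TSM.fl_tau hG.mv hl hs, by simp [hn]⟩
        rw [hφ _ _ q1, hφ _ _ q2]
        congr 1
        refine hmktau j (k + 1) y (x :: l) q1 s ?_ q2
        intro I hI
        rcases List.mem_cons.1 hI with rfl | hI
        · exact hs
        · exact (hl.ss hI).subset hs)
      (by
        intro m hm y l hl hn
        have q1 : Fl G (mvs L y) l ∧ l.length = k + 1 + 1 := ⟨hl, hn⟩
        have q2 : Fl G (mvs L (m • y)) l ∧ l.length = k + 1 + 1 :=
          ⟨TSM.fl_smul hG ((Ps j).2.1 hm) hl, hn⟩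
        rw [hφ _ _ q1, hφ _ _ q2]
        congr 1
        exact hmksmul j (k + 1) y l q1 m hm q2)
      (by
        intro y l hl hn
        have q := hT5 j (k + 1) f y l ⟨hl, hn⟩
        rw [hf] at q
        exact q.symm)
    -- descend
    have hwd : ∀ y l (h : Fl G (mvs L y) l ∧ l.length = k + 1) y' l'
        (h' : Fl G (mvs L y') l' ∧ l'.length = k + 1),
        mk (j + 1) k y l h = mk (j + 1) k y' l' h' → ψ y l = ψ y' l' := by
      intro y l h y' l' h' hh
      obtain ⟨rfl, m, hm, w, hw, hy'⟩ := (hT2 (j + 1) k y l h y' l' h').1 hh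
      subst hy'
      cases l with
      | nil => exact absurd h.2 (by simp)
      | cons x l =>
        have hn : l.length = k := by simpa using h.2
        have hwx : ∀ s ∈ w, s ∈ x := fun s hs => hw s hs x List.mem_cons_self
        have q1 : ∀ w : List Λ, (∀ s ∈ w, s ∈ x) → ψ (w.foldr L.τ y) (x :: l) = ψ y (x :: l) := by
          intro w
          induction w with
          | nil => intro _; rfl
          | cons s w ih =>
            intro hw
            rw [List.foldr_cons]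
            have hw' : ∀ t ∈ w, t ∈ x := fun t ht => hw t (List.mem_cons_of_mem _ ht)
            rw [hψ1 (w.foldr L.τ y) x l (TSM.fl_foldr hG.mv h.1 w hw') hn s (hw s List.mem_cons_self)]
            exact ih hw'
        rw [hψ2 m hm (w.foldr L.τ y) (x :: l) (TSM.fl_foldr hG.mv h.1 w hwx) h.2, q1 w hwx]
    choose py pl ph hpx using hT1 (j + 1) k
    let g : T.S (j + 1) k → ZMod p := fun x => ψ (py x) (pl x)
    have hg : ∀ y l (h : Fl G (mvs L y) l ∧ l.length = k + 1), g (mk (j + 1) k y l h) = ψ y l := by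
      intro y l h
      exact hwd _ _ (ph (mk (j + 1) k y l h)) _ _ h (hpx _).symm
    refine ⟨g, ?_⟩
    funext x
    obtain ⟨y, l, h, rfl⟩ := hT1 (j + 1) (k + 1) x
    rw [hT5, hT3, ← hφ y l h, hψ3 y l h.1 h.2]
    refine del_congr fun l' q1 q2 => ?_
    have q3 := TSM.smp_sub h q1 q2
    rw [dif_pos q3, hg]
  -- the second hypothesis
  have hHB : IsEmpty (T.S 0 (Nat.card Λ + 1)) := by
    refine ⟨fun x => ?_⟩
    obtain ⟨y, l, h, rfl⟩ := hT1 0 (Nat.card Λ + 1) x
    have := TSM.fl_length h.1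
    have := h.2
    omega
  -- the third hypothesis
  have hHC : ∀ f : T.S (Nat.card Λ) 0 → ZMod p, T.δ (Nat.card Λ) 0 f = 0 → ∀ a b, f a = f b := by
    intro f hf
    have hem : ∀ y, Fl G (mvs L y) [(∅ : Set Λ)] ∧ [(∅ : Set Λ)].length = 0 + 1 := fun y =>
      ⟨TSM.fl_single (by simp) (Set.empty_subset _), rfl⟩
    have hedge : ∀ y I J (h : Fl G (mvs L y) [I, J]) (q1 : Fl G (mvs L y) [I] ∧ [I].length = 0 + 1)
        (q2 : Fl G (mvs L y) [J] ∧ [J].length = 0 + 1),
        f (mk _ 0 y [J] q2) = f (mk _ 0 y [I] q1) := by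
      intro y I J h q1 q2
      have q := hT5 (Nat.card Λ) 0 f y [I, J] ⟨h, rfl⟩
      rw [hf, TSM.del_pair, dif_pos q1, dif_pos q2] at q
      exact (sub_eq_zero.1 q.symm)
    have hone : ∀ y I (q : Fl G (mvs L y) [I] ∧ [I].length = 0 + 1),
        f (mk _ 0 y [I] q) = f (mk _ 0 y [∅] (hem y)) := by
      intro y I q
      rcases Set.eq_empty_or_nonempty I with rfl | hI
      · rfl
      · refine hedge y ∅ I ?_ (hem y) q
        exact TSM.fl_pair (Set.empty_ssubset.2 hI) (q.1.2 I List.mem_cons_self).1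
          (q.1.2 I List.mem_cons_self).2
    have hstep : ∀ y s, f (mk _ 0 (L.τ s y) [∅] (hem _)) = f (mk _ 0 y [∅] (hem y)) := by
      intro y s
      by_cases hs : L.τ s y = y
      · congr 1
        rw [hT2]
        exact ⟨rfl, 1, Subgroup.one_mem _, [], fun t ht => absurd ht List.not_mem_nil, by
          rw [one_smul, hs]; rfl⟩
      · have hcl : G.IsClique ({s} : Set Λ) := by simp
        have hsub : ({s} : Set Λ) ⊆ mvs L y := by
          intro t ht
          rw [Set.mem_singleton_iff.1 ht]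
          exact hs
        have q1 : Fl G (mvs L y) [({s} : Set Λ)] ∧ [({s} : Set Λ)].length = 0 + 1 :=
          ⟨TSM.fl_single hcl hsub, rfl⟩
        have q2 : Fl G (mvs L (L.τ s y)) [({s} : Set Λ)] ∧ [({s} : Set Λ)].length = 0 + 1 :=
          ⟨TSM.fl_single hcl (TSM.sub_mvs_tau hG.mv hcl hsub (Set.mem_singleton s)), rfl⟩
        rw [← hone y {s} q1, ← hone (L.τ s y) {s} q2]
        congr 1
        refine hmktau _ 0 y [{s}] q1 s ?_ q2
        intro I hI
        rw [List.mem_singleton.1 hI]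
        exact Set.mem_singleton s
    have hconst : ∀ y y', f (mk _ 0 y' [∅] (hem y')) = f (mk _ 0 y [∅] (hem y)) := by
      intro y y'
      induction hG.conn y y' with
      | refl => rfl
      | tail _ hab ih =>
        obtain ⟨s, rfl⟩ := hab
        rw [hstep]
        exact ih
    intro a b
    obtain ⟨y, l, h, rfl⟩ := hT1 (Nat.card Λ) 0 a
    obtain ⟨y', l', h', rfl⟩ := hT1 (Nat.card Λ) 0 b
    obtain ⟨I, rfl⟩ := TSM.len_one h.2
    obtain ⟨I', rfl⟩ := TSM.len_one h'.2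
    rw [hone y I h, hone y' I' h']
    exact hconst y' y
  -- the function
  have hEfold : ∀ y I, G.IsClique I → I ⊆ mvs L y → ∀ w : List Λ, (∀ s ∈ w, s ∈ I) →
      (E (w.foldr L.τ y) I ↔ E y I) := by
    intro y I hI hy w
    induction w with
    | nil => intro _; exact Iff.rfl
    | cons s w ih =>
      intro hw
      have hw' : ∀ t ∈ w, t ∈ I := fun t ht => hw t (List.mem_cons_of_mem _ ht)
      rw [List.foldr_cons]
      exact (h2 (w.foldr L.τ y) I hI (TSM.sub_mvs_foldr hG.mv hI hy w hw') s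
        (hw s List.mem_cons_self)).trans (ih hw')
  let EE : T.S 0 0 → Prop := fun x => ∃ y I h, x = mk 0 0 y [I] h ∧ E y I
  have hEE : ∀ y I h, EE (mk 0 0 y [I] h) ↔ E y I := by
    intro y I h
    constructor
    · rintro ⟨y', I', h', hh, hE⟩
      obtain ⟨hl, m, hm, w, hw, hy'⟩ := (hT2 0 0 y [I] h y' [I'] h').1 hh
      have hII : I = I' := by simpa using hl
      subst hII
      have hI := h.1.2 I List.mem_cons_self
      have hw' : ∀ s ∈ w, s ∈ I := fun s hs => hw s hs I List.mem_cons_self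
      rw [hy'] at hE
      have q := (h1 (w.foldr L.τ y) I hI.1 (TSM.sub_mvs_foldr hG.mv hI.1 hI.2 w hw') m hm).1 hE
      exact (hEfold y I hI.1 hI.2 w hw').1 q
    · intro hE
      exact ⟨y, I, h, rfl, hE⟩
  let f : T.S 0 0 → ZMod p := fun x => if EE x ∧ T.σ 0 0 x = x then 1 else 0
  have hp1 : 1 ≤ p := (Fact.out : p.Prime).one_le
  have hfD : ∀ x, f (T.σ 0 0 x) = f x := by
    intro x
    by_cases hx : T.σ 0 0 x = x
    · rw [hx]
    · have hx2 : T.σ 0 0 (T.σ 0 0 x) ≠ T.σ 0 0 x := by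
        intro hh
        have q : ∀ n, (T.σ 0 0)^[n + 1] x = T.σ 0 0 x := by
          intro n
          induction n with
          | zero => rfl
          | succ n ih => rw [Function.iterate_succ_apply', ih, hh]
        have q3 : ∀ n, 1 ≤ n → (T.σ 0 0)^[n] x = T.σ 0 0 x := by
          intro n hn
          obtain ⟨k, rfl⟩ : ∃ k, n = k + 1 := ⟨n - 1, by omega⟩
          exact q k
        exact hx ((q3 p hp1).symm.trans (T.pow 0 0 x))
      change (if EE (T.σ 0 0 x) ∧ T.σ 0 0 (T.σ 0 0 x) = T.σ 0 0 x then (1 : ZMod p) else 0) =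
        if EE x ∧ T.σ 0 0 x = x then 1 else 0
      rw [if_neg fun q => hx2 q.2, if_neg fun q => hx q.2]
  have hfx : ∀ y I h, T.σ 0 0 (mk 0 0 y [I] h) = mk 0 0 y [I] h →
      f (mk 0 0 y [I] h) = if E y I then 1 else 0 := by
    intro y I h hh
    change (if EE (mk 0 0 y [I] h) ∧ T.σ 0 0 (mk 0 0 y [I] h) = mk 0 0 y [I] h then (1 : ZMod p) else 0) = _
    by_cases hE : E y I
    · rw [if_pos ⟨(hEE y I h).2 hE, hh⟩, if_pos hE]
    · rw [if_neg fun q => hE ((hEE y I h).1 q.1), if_neg hE]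
  -- fixed vertices
  have hfix : ∀ j y I (h : Fl G (mvs L y) [I] ∧ [I].length = 0 + 1), Fxm L al (Ps j).1 σ y I →
      T.σ j 0 (mk j 0 y [I] h) = mk j 0 y [I] h := by
    intro j y I h hF
    obtain ⟨hI, m, hm, w, hw, hy⟩ := hF
    obtain ⟨h', hh⟩ := hT4 j 0 y [I] h
    rw [hh]
    refine ((hT2 j 0 y [I] h (σ • y) _ h').2 ⟨?_, m, hm, w, ?_, hy⟩).symm
    · change [I] = [al σ '' I]
      rw [hI]
    · intro s hs J hJ
      rw [List.mem_singleton.1 hJ]
      exact hw s hs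
  have hfE : ∀ e, T.σ 0 1 e = e → T.δ 0 0 f e = 0 := by
    intro e he
    obtain ⟨y, l, h, rfl⟩ := hT1 0 1 e
    obtain ⟨I, J, rfl⟩ := TSM.len_two h.2
    obtain ⟨h', hh⟩ := hT4 0 1 y [I, J] h
    rw [hh] at he
    obtain ⟨hl, m, hm, w, hw, hy⟩ := (hT2 0 1 y [I, J] h _ _ h').1 he.symm
    have hl2 : I = al σ '' I ∧ J = al σ '' J := by simpa using hl
    have hIJ : I ⊂ J := h.1.ss List.mem_cons_self
    have hJ := h.1.2 J (by simp)
    have hI := h.1.2 I (by simp)
    have hFI : Fxm L al (Ps 0).1 σ y I :=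
      ⟨hl2.1.symm, m, hm, w, fun s hs => hw s hs I (by simp), hy⟩
    have hFJ : Fxm L al (Ps 0).1 σ y J :=
      ⟨hl2.2.symm, m, hm, w, fun s hs => hw s hs J (by simp), hy⟩
    have q1 : Fl G (mvs L y) [I] ∧ [I].length = 0 + 1 := ⟨TSM.fl_single hI.1 hI.2, rfl⟩
    have q2 : Fl G (mvs L y) [J] ∧ [J].length = 0 + 1 := ⟨TSM.fl_single hJ.1 hJ.2, rfl⟩
    have hEq : E y I ↔ E y J := h3 y I J hJ.1 hJ.2 hIJ hFI hl2.2.symm
    have q := hT5 0 0 f y [I, J] h
    rw [q, TSM.del_pair, dif_pos q1, dif_pos q2, hfx y I q1 (hfix 0 y I q1 hFI),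
      hfx y J q2 (hfix 0 y J q2 hFJ), sub_eq_zero]
    by_cases hE : E y I
    · rw [if_pos hE, if_pos (hEq.1 hE)]
    · rw [if_neg hE, if_neg fun q => hE (hEq.2 q)]
  have hto : ∀ j y l h, T.to0 0 j (mk j 0 y l h) = mk 0 0 y l h := by
    intro j y l h
    induction j with
    | zero => rfl
    | succ j ih =>
      change T.to0 0 j (T.pr j 0 (mk (j + 1) 0 y l h)) = _
      rw [hT3]
      exact ih
  have hmain := hSM p T (Nat.card Λ) hHA hHB hHC f hfD hfE
  refine ⟨(Ps (Nat.card Λ)).1, (Ps (Nat.card Λ)).2.1, (Ps (Nat.card Λ)).2.2.1,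
    (Ps (Nat.card Λ)).2.2.2, ?_⟩
  intro y I y' I' hI hIy hI' hIy' hF hF'
  have q1 : Fl G (mvs L y) [I] ∧ [I].length = 0 + 1 := ⟨TSM.fl_single hI hIy, rfl⟩
  have q2 : Fl G (mvs L y') [I'] ∧ [I'].length = 0 + 1 := ⟨TSM.fl_single hI' hIy', rfl⟩
  have hup : ∀ y I, Fxm L al (Ps (Nat.card Λ)).1 σ y I → Fxm L al (Ps 0).1 σ y I := by
    intro y I hF
    obtain ⟨ha, m, hm, w, hw, hy⟩ := hF
    exact ⟨ha, m, (Ps (Nat.card Λ)).2.1 hm, w, hw, hy⟩
  have q := hmain (mk _ 0 y [I] q1) (mk _ 0 y' [I'] q2) (hfix _ y I q1 hF) (hfix _ y' I' q2 hF')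
  rw [hto, hto, hfx y I q1 (hfix 0 y I q1 (hup y I hF)), hfx y' I' q2 (hfix 0 y' I' q2 (hup y' I' hF'))] at q
  have h01 : (1 : ZMod p) ≠ 0 := by
    have : Fact (1 < p) := ⟨(Fact.out : p.Prime).one_lt⟩
    exact one_ne_zero
  by_cases hE : E y I
  · by_cases hE' : E y' I'
    · exact ⟨fun _ => hE', fun _ => hE⟩
    · rw [if_pos hE, if_neg hE'] at q
      exact absurd q h01
  · by_cases hE' : E y' I'
    · rw [if_neg hE, if_pos hE'] at q
      exact absurd q.symm h01
    · exact ⟨fun h => absurd h hE, fun h => absurd h hE'⟩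

end Pool.CS
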